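import Pool.Agent.W850.HT.Bal

/-!
# A real Lévy process with jumps of infinite variation for which Hunt's hypothesis (H) fails

The process is `X t = t + ∑ m, e (m + 1) * ((N⁺ m t - r⁺ m * t) - (N⁻ m t - r⁻ m * t))` with
independent Poisson processes `N⁺ m`, `N⁻ m` of rates `r⁺ m`, `r⁻ m`, where `e n` is an integer
multiple of `e (n + 1)` and `e (m + 1) * r⁻ m = 1`, so that the jumps have infinite variation. The
net speeds `v n`, given by `v n - v (n + 1) = e (n + 1) * (r⁺ n - r⁻ n)` and `v 0 = 1`, decrease
rapidly to `0`. Modulo `e n` the process moves with the nearly constant speed `v n`. The closed set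
`A` of all `x` such that, for every `n`, `x` mod `e n` lies in a suitable window is thin, as the
process cannot return to `A` at small times, and a Fubini argument shows that it is not polar.
-/

set_option autoImplicit false

open MeasureTheory ProbabilityTheory Set Filter Topology
open scoped NNReal ENNReal

namespace Pool.Agent.Results.MP_ee1e43_pr.InfiniteVariationWithoutH

open Pool.Agent.W850.HT

/-- There are a real Lévy process without Gaussian part whose Lévy measure satisfies
`∫ min 1 |x| μ(dx) = ∞`, and a closed thin set which is not polar for it; in particular Hunt's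
hypothesis (H) fails for this process. -/
theorem result : ∃ (Ω : Type) (_ : MeasurableSpace Ω) (P : Measure Ω) (X : ℝ≥0 → Ω → ℝ) (a : ℝ)
    (μ : Measure ℝ), IsProbabilityMeasure P ∧ IsLevyProcess P X ∧ HasLevyTriplet P X a 0 μ ∧
    ∫⁻ x, ENNReal.ofReal (min 1 |x|) ∂μ = ∞ ∧
    (∃ A : Set ℝ, IsClosed A ∧ Thin P X A ∧ ¬ Polar P X A) ∧ ¬ HypothesisH P X :=
  ⟨Om, inferInstance, PP Bal.par.r, Bal.par.X, 1, Bal.par.mu, inferInstance, Bal.par.isLevy,
    Bal.triplet, Bal.infinite_variation,
    ⟨Bal.dat.clk.A, Bal.dat.clk.isClosed_A, Bal.thin_A, Bal.not_polar_A⟩, Bal.not_H⟩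

end Pool.Agent.Results.MP_ee1e43_pr.InfiniteVariationWithoutH
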